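import Mathlib
import Pool.Agent.Q29.SE.NoRat

/-!
# Points given by short sums of power products on varieties without rational curves

Let `X` be a closed subset of projective `n`-space over a number field `k`, given by forms of
degree at most `d` and length at most `W` with integral coefficients. If `X` is groupless, then it
contains no rational curve. We prove: `X` contains no rational curve (over any number field
containing `k`) if and only if for all `r, D` and ALL number fields `K` containing `k`, all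
`H, N ≥ 1` and all `t` in the ring of integers of `K` with
`|Norm t| ^ (1 / [K : ℚ]) ≥ (C W H N) ^ C` every point of `X` over `K` with homogeneous coordinates

  `∑_{l ≤ r} v_l t^(m_l) ∏_i F_i(t)^(e_il)`

(`v_l` vectors of integers of `K` of house at most `H`, arbitrary exponents `m_l`, any number of
polynomials `F_i` over the ring of integers of `K`, of total degree at most `D`, with coefficients
of house at most `H`, whose constant terms are roots of unity, `∑_i e_il ≤ N` for all `l`) has
homogeneous coordinates that are integers of `K` of house at most `(C H) ^ C`. Here `C` is an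
explicit function of `r, d, D` only.
-/

set_option autoImplicit false

namespace Pool.Agent.Results.MP_c7af3c_ag.PowerPoints

open Polynomial NumberField

section defs

variable {n : ℕ}

/-- The zero set of the forms in `FF` (with coefficients in the ring of integers of `k`) contains
no rational curve: for each number field `L` containing `k` every polynomial map `p` from the line
over `L` to projective space which satisfies all equations is constant. -/
def NoRationalCurves {k : Type} [Field k] (FF : Set (MvPolynomial (Fin (n + 1)) (𝓞 k))) : Prop :=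
  ∀ (L : Type) [Field L] [NumberField L] [Algebra k L] (p : Fin (n + 1) → L[X]),
    (∀ F ∈ FF, MvPolynomial.aeval p (MvPolynomial.map (algebraMap (𝓞 k) k) F) = 0) →
    ∀ (i j : Fin (n + 1)) (a b : L), (p i).eval a * (p j).eval b = (p j).eval a * (p i).eval b

/-- The sum of the houses of the coefficients of a form. (`house` is the largest absolute value of
the conjugates.) -/
noncomputable def length {k : Type} [Field k] [NumberField k]
    (F : MvPolynomial (Fin (n + 1)) (𝓞 k)) : ℝ :=
  ∑ α ∈ F.support, house (algebraMap (𝓞 k) k (MvPolynomial.coeff α F))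

/-- Vectors `p` of polynomials of the form `p = ∑ v_l X^(m_l) ∏_i F_i^(e_il)`, `r` terms, where the
`v_l` are vectors of integers of `K` of house at most `H`, the exponents `m_l` are arbitrary, the
`F_i` (any number of them) are polynomials of total degree at most `D` with integral coefficients
of house at most `H` whose constant terms are roots of unity, and `∑_i e_il ≤ N` for each `l`. -/
def PowerVec {K : Type} [Field K] [NumberField K] (r D N : ℕ) (H : ℝ)
    (p : Fin (n + 1) → (𝓞 K)[X]) : Prop :=
  ∃ (q : ℕ) (F : Fin q → (𝓞 K)[X]) (m : Fin r → ℕ) (e : Fin r → Fin q → ℕ)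
    (v : Fin r → Fin (n + 1) → 𝓞 K), ∑ i, (F i).natDegree ≤ D ∧
    (∀ i, ∃ j, 0 < j ∧ (F i).coeff 0 ^ j = 1) ∧
    (∀ i j, house (algebraMap (𝓞 K) K ((F i).coeff j)) ≤ H) ∧
    (∀ l, ∑ i, e l i ≤ N) ∧ (∀ l i, house (algebraMap (𝓞 K) K (v l i)) ≤ H) ∧
    ∀ i, p i = ∑ l, C (v l i) * (X ^ m l * ∏ j, F j ^ e l j)

/-- The points over `K` of the zero set of the forms in `FF` which have homogeneous coordinates
`p(t)` with `p` as above. -/
def powerPoints {k : Type} [Field k] [NumberField k]
    (FF : Set (MvPolynomial (Fin (n + 1)) (𝓞 k)))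
    (K : Type) [Field K] [NumberField K] [Algebra k K] (t : 𝓞 K) (r D N : ℕ) (H : ℝ) :
    Set (Projectivization K (Fin (n + 1) → K)) :=
  {P | ∃ (p : Fin (n + 1) → (𝓞 K)[X]) (h : (fun i => algebraMap (𝓞 K) K ((p i).eval t)) ≠ 0),
    PowerVec r D N H p ∧
    P = Projectivization.mk K (fun i => algebraMap (𝓞 K) K ((p i).eval t)) h ∧
    ∀ F ∈ FF, MvPolynomial.aeval (fun i => (p i).eval t) F = 0}

/-- The points over `K` with homogeneous coordinates that are algebraic integers of house at
most `B`. -/
def small (K : Type) [Field K] [NumberField K] (n : ℕ) (B : ℝ) :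
    Set (Projectivization K (Fin (n + 1) → K)) :=
  {P | ∃ (y : Fin (n + 1) → 𝓞 K) (h : (fun i => algebraMap (𝓞 K) K (y i)) ≠ 0),
    P = Projectivization.mk K (fun i => algebraMap (𝓞 K) K (y i)) h ∧
    ∀ i, house (algebraMap (𝓞 K) K (y i)) ≤ B}

/-- `|Norm t| ^ (1 / [K : ℚ])` is at least `(C W H N) ^ C`. -/
def Large {K : Type} [Field K] [NumberField K] (C N : ℕ) (W H : ℝ) (t : 𝓞 K) : Prop :=
  ((C * (W * H * N)) ^ C) ^ Module.finrank ℚ K ≤ |((Algebra.norm ℤ t : ℤ) : ℝ)|

/-- Over all number fields `K` containing `k`, all the points in question with `t` large have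
integral coordinates of house at most `(C H) ^ C`. -/
def Bounded {k : Type} [Field k] [NumberField k] (FF : Set (MvPolynomial (Fin (n + 1)) (𝓞 k)))
    (W : ℝ) (r D C : ℕ) : Prop :=
  ∀ (K : Type) [Field K] [NumberField K] [Algebra k K] (H : ℝ) (N : ℕ) (t : 𝓞 K),
    1 ≤ H → 1 ≤ N → Large C N W H t → powerPoints FF K t r D N H ⊆ small K n ((C * H) ^ C)

end defs

theorem norm_nat {K : Type} [Field K] [NumberField K] (t : ℕ) :
    |((Algebra.norm ℤ (t : 𝓞 K) : ℤ) : ℝ)| = (t : ℝ) ^ Module.finrank ℚ K := by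
  have h1 : (t : 𝓞 K) = algebraMap ℤ (𝓞 K) (t : ℤ) := by simp
  rw [h1, Algebra.norm_algebraMap, RingOfIntegers.rank]
  push_cast
  rw [abs_pow, Nat.abs_cast]

theorem result : ∃ C : ℕ → ℕ → ℕ → ℕ, ∀ (k : Type) [Field k] [NumberField k] (n d : ℕ) (W : ℝ)
    (FF : Set (MvPolynomial (Fin (n + 1)) (𝓞 k))), 1 ≤ W →
    (∀ F ∈ FF, (∃ e, e ≤ d ∧ F.IsHomogeneous e) ∧ length F ≤ W) →
    (NoRationalCurves FF ↔ ∀ r D : ℕ, Bounded FF W r D (C r d D)) := by
  refine ⟨Pool.Agent.Q29.SE.Cst, ?_⟩
  intro k _ _ n d W FF hW hFF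
  constructor
  · intro hno r D
    rintro K _ _ _ H N t hH hN ht P ⟨p, h0, hp, rfl, hz⟩
    obtain ⟨y, hy0, hxy, hyB⟩ := Pool.Agent.Q29.SE.noRat_small hW FF hFF hno r D K H N t hH hN ht
      (fun i => (p i).eval t) ((Pool.Agent.H458.Sp.ne_zero_iff _).mp h0) ⟨p, hp, fun _ => rfl⟩ hz
    exact ⟨y, (Pool.Agent.H458.Sp.ne_zero_iff y).2 hy0,
      Pool.Agent.H458.Sp.mk_eq _ y _ _ hxy, hyB⟩
  · intro hall
    by_contra hno
    obtain ⟨r, K, iK, iN, iA, H, hH, h⟩ := Pool.Agent.Q29.SE.conv_curve k FF
      (fun F hF => let ⟨e, _, he⟩ := (hFF F hF).1; ⟨e, he⟩) hno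
    obtain ⟨C, hC⟩ : ∃ C, C = Pool.Agent.Q29.SE.Cst r d 0 := ⟨_, rfl⟩
    have hb := hall r 0
    rw [← hC] at hb
    obtain ⟨t, htL, p, hp, h0, hz, hsm⟩ := h ((C * (W * H * 1)) ^ C) ((C * H) ^ C)
    have hlarge : Large C 1 W H (t : 𝓞 K) := by
      unfold Large
      rw [norm_nat, Nat.cast_one]
      exact pow_le_pow_left₀ (by positivity) htL _
    obtain ⟨y, hy, hP, hyB⟩ := hb K H 1 t hH le_rfl hlarge
      ⟨p, (Pool.Agent.H458.Sp.ne_zero_iff _).mpr h0, hp, rfl, hz⟩
    obtain ⟨i, hi⟩ := hsm y ((Pool.Agent.H458.Sp.ne_zero_iff _).mp hy) (by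
      obtain ⟨u, hu⟩ := (Projectivization.mk_eq_mk_iff' K _ _ _ _).mp hP
      intro i j
      apply FaithfulSMul.algebraMap_injective (𝓞 K) K
      have h1 := congrFun hu i
      have h2 := congrFun hu j
      rw [Pi.smul_apply, smul_eq_mul] at h1 h2
      rw [map_mul, map_mul, ← h1, ← h2]
      ring)
    exact absurd (hyB i) (not_le.mpr hi)

end Pool.Agent.Results.MP_c7af3c_ag.PowerPoints
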