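import Pool.Agent.Q183.UH.APts

/-!
# Points over finitely generated rings in recurrent sequences

Let `k` be an algebraically closed field of characteristic zero and let `X` be a closed subvariety of
projective `N`-space over `k` given by forms of degree at most `D`.  There are functions `M ≥ 1` and
`C` of `(R, d)`, which depend only on `N` and `D`, such that the following are equivalent:

(a) `X` contains no rational curve (this holds if `X` is groupless);

(b) for all fields `K` which contain `k` and all finite sequences `P 0, ..., P (l - 1)` of points of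
`X` over `K`, of any length `l`, whose homogeneous coordinates satisfy linear recurrences of order at
most `R` the coefficients of which are polynomials of degree at most `d` in the index,
`P (t + M) = P t` for `C ≤ t ≤ l - M - C`;

(c) all these sequences have at most `M + 2 C` different members;

(d) for all subrings `A` of `k` which are finitely generated over the integers, every sequence of
`A`-points of `X` (homogeneous coordinates in `A` which generate the unit ideal of `A`) whose
coordinates satisfy linear recurrences with constant coefficients has only finitely many different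
members.
-/

set_option autoImplicit false

namespace Pool.Agent.Results.MP_c7af3c_ag.RecurrentAPoints

open MvPolynomial Pool.Agent.Q183.UH
open scoped LinearAlgebra.Projectivization

variable {N : ℕ} {k : Type} [Field k]

/-- The maps from the projective line to the variety of the forms in `FF` are constant. -/
def NoRationalCurve (FF : Set (MvPolynomial (Fin (N + 1)) k)) : Prop :=
  ∀ p : Fin (N + 1) → Polynomial k, (∀ F ∈ FF, aeval p F = 0) →
    ∀ i j m n, (p i).coeff m * (p j).coeff n = (p j).coeff m * (p i).coeff n

theorem result (N D : ℕ) : ∃ M C : ℕ → ℕ → ℕ, (∀ R d, 0 < M R d) ∧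
    ∀ (k : Type) [Field k] [CharZero k] [IsAlgClosed k] (FF : Set (MvPolynomial (Fin (N + 1)) k)),
      (∀ F ∈ FF, ∃ e, e ≤ D ∧ F.IsHomogeneous e) →
      [NoRationalCurve FF,
       ∀ (K : Type) [Field K] [Algebra k K] (R d l : ℕ) (P : ℕ → ℙ K (Fin (N + 1) → K)),
        FinPoints FF K R d l P → ∀ t, C R d ≤ t → t + M R d + C R d ≤ l → P (t + M R d) = P t,
       ∀ (K : Type) [Field K] [Algebra k K] (R d l : ℕ) (P : ℕ → ℙ K (Fin (N + 1) → K)),
        FinPoints FF K R d l P → (P '' {t | t < l}).encard ≤ (M R d + 2 * C R d : ℕ),
       ∀ (S : Finset k) (R : ℕ) (P : ℕ → ℙ k (Fin (N + 1) → k)),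
        RingPoints FF (Subring.closure (S : Set k)) R P → (Set.range P).Finite].TFAE := by
  obtain ⟨M, C, hM, h⟩ := fin_tfae N D
  refine ⟨M, C, hM, fun k _ _ _ FF hFF => ?_⟩
  have hZ : ∀ {L : Type} [Field L] [Algebra k L] (P : ℙ L (Fin (N + 1) → L)),
      ¬ InZ ({1} : Set (MvPolynomial (Fin (N + 1)) k)) P := by
    intro L _ _ P hP
    have h2 := hP 1 rfl
    rw [map_one] at h2
    exact one_ne_zero h2
  have hT := h k FF {1} hFF (fun G hG => ⟨0, Nat.zero_le _, by
    rw [Set.mem_singleton_iff.1 hG]
    exact isHomogeneous_one _ _⟩)
  have h23 := hT.out 1 2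
  tfae_have 1 → 2 := by
    intro h1
    have hR : RatIn FF {1} k := fun p hp => Or.inl (h1 p hp)
    have h2 : ∀ (E : Type) [Field E] [Algebra k E] [FiniteDimensional k E], RatIn FF {1} E := by
      intro E i1 i2 i3
      exact hR.fin_ext E
    have h3 := h23.1 h2
    intro K _ _ R d l P hP t ht1 ht2
    rcases h3 K R d l P hP t ht1 ht2 with h4 | h4
    · exact h4
    · exact absurd h4.1 (hZ _)
  tfae_have 2 → 3 := by
    intro h2 K _ _ R d l P hP
    have h4 := fin_points_le (Z := fun _ => False) (hM R d) fun t ht1 ht2 =>
      Or.inl (h2 K R d l P hP t ht1 ht2)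
    simpa using h4
  tfae_have 3 → 4 := by
    intro h3 S R P hP
    refine range_finite_of_shift (r := R) ?_
    exact finite_of_bdd (B := M R 0 + 2 * C R 0) fun l => h3 k R 0 l _ (hP.crec.fin 0 l)
  tfae_have 4 → 1 := by
    intro h4 p hp
    by_contra hnc
    obtain ⟨S, R, P, hP, hb⟩ := ring_seq (fun F hF => by
      obtain ⟨e, _, he⟩ := hFF F hF
      exact ⟨e, he⟩) hp hnc
    exact hb (h4 S R P hP)
  tfae_finish

end Pool.Agent.Results.MP_c7af3c_ag.RecurrentAPoints
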