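import Mathlib
import Pool.Agent.Q51.UV.Int

set_option autoImplicit false

/-!
# Sums of `r` vectors on projective varieties: all points near groups of finite rank

Let `X` be a closed subset of projective space over a field `L` which contains the algebraic numbers,
given by forms of degree at most `d`. For a finitely generated group `Γ` of algebraic numbers, vectors
`V 1, …, V r` over `L` and `ε > 0` let `X(Γ, ε, V)` be the set of the points of `X` over `L` with
homogeneous coordinates of the form `∑ u j s j V j`, where the `u j` have a power in `Γ` and the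
`s j` are algebraic numbers such that the point `(s 1 : … : s r)` has height less than `ε`.

There are positive numbers `ε d r` and numbers `M Γ d r`, which depend on nothing else, such that for
all `L`, all dimensions, all `X` and every `r` the following conditions are equivalent.

1. Every curve `t ↦ ∑ t ^ (l j) c j` with `r` terms on `X` is constant.
2. For all `Γ` and all `V 1, …, V r` the set `X(Γ, ε d r, V)` has at most `M Γ d r` elements.
3. For all `V 1, …, V r` only finitely many points of `X` have homogeneous coordinates of the form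
   `∑ 2 ^ (e j) V j`, `e j ≥ 0` integers.

A closed set has the property 1 for all `r` if and only if it contains no rational curve; for `r = 2`
the property 1 says that it contains no line.
-/

namespace Pool.Agent.Results.MP_c7af3c_ag.UniformFiniteRank

open MvPolynomial
open scoped LinearAlgebra.Projectivization
open Pool.Agent.Helper259.AbsHt (absLogHeight absLogHeight_nonneg absLogHeight_comp_le)

/-- The algebraic numbers. -/
abbrev Qbar : Type := AlgebraicClosure ℚ

/-- The curve `t ↦ ∑ j, t ^ (l j) c j` with `r` terms. -/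
noncomputable def curve {L : Type} [Field L] {n r : ℕ} (c : Fin r → Fin (n + 1) → L) (l : Fin r → ℕ) :
    Fin (n + 1) → Polynomial L := fun i => ∑ j, Polynomial.C (c j i) * Polynomial.X ^ l j

/-- Every curve with `r` terms on the closed subset `F = 0` of projective space is constant. -/
def NoCurve {L : Type} [Field L] {n N : ℕ} (r : ℕ) (F : Fin N → MvPolynomial (Fin (n + 1)) L) :
    Prop :=
  ∀ (c : Fin r → Fin (n + 1) → L) (l : Fin r → ℕ), (∀ i, aeval (curve c l) (F i) = 0) →
    ∃ (g : Polynomial L) (b : Fin (n + 1) → L), ∀ i, curve c l i = g * Polynomial.C (b i)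

/-- `u` has a power in `Γ`. -/
def HasPowerIn (Γ : Subgroup Qbarˣ) (u : Qbarˣ) : Prop := ∃ m : ℕ, 0 < m ∧ u ^ m ∈ Γ

/-- The points of `F = 0` over `L` with homogeneous coordinates `∑ u j s j V j`, where the `u j` have
a power in `Γ` and the height of the point `s` is less than `ε`. -/
def nearPoints {L : Type} [Field L] [Algebra Qbar L] {n N r : ℕ}
    (F : Fin N → MvPolynomial (Fin (n + 1)) L) (Γ : Subgroup Qbarˣ) (ε : ℝ)
    (V : Fin r → Fin (n + 1) → L) : Set (ℙ L (Fin (n + 1) → L)) :=
  {P | ∃ (u : Fin r → Qbarˣ) (s : Fin r → Qbar)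
    (h : (fun i => ∑ j, algebraMap Qbar L (u j * s j) * V j i) ≠ 0),
    (∀ j, HasPowerIn Γ (u j)) ∧ absLogHeight s < ε ∧ P = Projectivization.mk L _ h ∧
      ∀ c, eval (fun i => ∑ j, algebraMap Qbar L (u j * s j) * V j i) (F c) = 0}

/-- The points of `F = 0` over `L` with homogeneous coordinates `∑ 2 ^ (e j) V j`. -/
def powerPoints {L : Type} [Field L] {n N r : ℕ} (F : Fin N → MvPolynomial (Fin (n + 1)) L)
    (V : Fin r → Fin (n + 1) → L) : Set (ℙ L (Fin (n + 1) → L)) :=
  {P | ∃ (e : Fin r → ℕ) (h : (fun i => ∑ j, (2 : L) ^ e j * V j i) ≠ 0),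
    P = Projectivization.mk L _ h ∧ ∀ c, eval (fun i => ∑ j, (2 : L) ^ e j * V j i) (F c) = 0}

theorem curve_eq {L : Type} [Field L] {n r : ℕ} (c : Fin r → Fin (n + 1) → L) (l : Fin r → ℕ) :
    curve c l = Pool.Agent.H533R3.SL.cur c l := by
  funext i
  rfl

theorem noCurve_lib {L : Type} [Field L] {n N r : ℕ} (F : Fin N → MvPolynomial (Fin (n + 1)) L)
    (h : NoCurve r F) : Pool.Agent.Q51.UV.NoCurve r F := by
  intro c l hz i i'
  obtain ⟨g, b, hgb⟩ := h c l hz
  rw [curve_eq] at hgb
  have hsum : ∀ j, ∑ j', c j' j = g.eval 1 * b j := by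
    intro j
    rw [← Pool.Agent.H533R3.SL.cur_eval_one c l j, hgb j]
    simp
  rw [hgb i, hgb i', hsum, hsum, Polynomial.C_mul, Polynomial.C_mul]
  ring

/-- A curve with `r` terms that is not constant gives infinitely many points. -/
theorem infinite_of_curve {L : Type} [Field L] [CharZero L] {n N r : ℕ}
    (F : Fin N → MvPolynomial (Fin (n + 1)) L) (V : Fin r → Fin (n + 1) → L) (l : Fin r → ℕ)
    (hp : ∀ i, aeval (curve V l) (F i) = 0)
    (hne : ¬ ∃ (g : Polynomial L) (b : Fin (n + 1) → L), ∀ i, curve V l i = g * Polynomial.C (b i)) :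
    (powerPoints F V).Infinite := by
  classical
  obtain ⟨p, hpV⟩ : ∃ p, p = curve V l := ⟨_, rfl⟩
  rw [← hpV] at hp hne
  have hx : ∀ t : ℕ, (fun i => ∑ j : Fin r, (2 : L) ^ (t * l j) * V j i) =
      fun i => (p i).eval ((2 : L) ^ t) := by
    intro t
    funext i
    rw [hpV]
    unfold curve
    rw [Polynomial.eval_finsetSum]
    refine Finset.sum_congr rfl fun j _ => ?_
    simp only [Polynomial.eval_mul, Polynomial.eval_C, Polynomial.eval_pow, Polynomial.eval_X]
    rw [pow_mul, mul_comm]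
  have hzero : ∀ t : ℕ, ∀ c, eval (fun i => (p i).eval ((2 : L) ^ t)) (F c) = 0 := by
    intro t c
    have h1 := congrArg (Polynomial.eval ((2 : L) ^ t)) (hp c)
    rw [Polynomial.eval_zero, aeval_def] at h1
    have h2 := hom_eval₂ (F c) (algebraMap L (Polynomial L)) (Polynomial.evalRingHom ((2 : L) ^ t)) p
    rw [Polynomial.coe_evalRingHom, h1] at h2
    have h3 : (Polynomial.evalRingHom ((2 : L) ^ t)).comp (algebraMap L (Polynomial L)) =
        RingHom.id L := by
      refine RingHom.ext fun b => ?_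
      simp
    rw [h3] at h2
    exact h2.symm
  -- distinct powers of two
  have hinj2 : Function.Injective (fun t : ℕ => (2 : L) ^ t) := by
    intro s t h
    have h' : ((2 ^ s : ℕ) : L) = ((2 ^ t : ℕ) : L) := by
      push_cast
      exact h
    exact Nat.pow_right_injective le_rfl (Nat.cast_injective h')
  have hroots : ∀ q : Polynomial L, {t : ℕ | q.eval ((2 : L) ^ t) = 0}.Infinite → q = 0 := by
    intro q hq
    refine Polynomial.eq_zero_of_infinite_isRoot q ?_
    refine (hq.image hinj2.injOn).mono ?_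
    rintro _ ⟨t, ht, rfl⟩
    exact ht
  refine fun hfin => hne ?_
  -- a coordinate that is not zero
  by_cases hp0 : ∀ i, p i = 0
  · exact ⟨0, fun _ => 0, fun i => by rw [hp0 i]; simp⟩
  push Not at hp0
  obtain ⟨i₀, hi₀⟩ := hp0
  have hgood : {t : ℕ | (p i₀).eval ((2 : L) ^ t) ≠ 0}.Infinite := by
    by_contra h
    rw [Set.not_infinite] at h
    apply hi₀
    apply hroots
    have h2 : {t : ℕ | (p i₀).eval ((2 : L) ^ t) = 0} =
        {t : ℕ | (p i₀).eval ((2 : L) ^ t) ≠ 0}ᶜ := by
      ext t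
      simp
    rw [h2]
    exact h.infinite_compl
  have hnz : ∀ t ∈ {t : ℕ | (p i₀).eval ((2 : L) ^ t) ≠ 0},
      (fun i => (p i).eval ((2 : L) ^ t)) ≠ 0 := by
    intro t ht h
    exact ht (congrFun h i₀)
  let θ : ℕ → ℙ L (Fin (n + 1) → L) := fun t =>
    if h : (fun i => (p i).eval ((2 : L) ^ t)) ≠ 0 then Projectivization.mk L _ h
    else Projectivization.mk L (fun _ => 1) (fun h => one_ne_zero (congrFun h 0))
  have hmaps : Set.MapsTo θ {t : ℕ | (p i₀).eval ((2 : L) ^ t) ≠ 0} (powerPoints F V) := by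
    intro t ht
    have h1 := hnz t ht
    have h2 : θ t = Projectivization.mk L _ h1 := dif_pos h1
    rw [h2]
    refine ⟨fun j => t * l j, by rw [hx]; exact h1, ?_, fun c => by rw [hx]; exact hzero t c⟩
    congr 1
    exact (hx t).symm
  obtain ⟨P, hP⟩ : ∃ P, {t : ℕ | (p i₀).eval ((2 : L) ^ t) ≠ 0 ∧ θ t = P}.Infinite := by
    by_contra hcon
    push Not at hcon
    apply hgood
    refine ((hfin.biUnion (t := fun P => {t : ℕ | (p i₀).eval ((2 : L) ^ t) ≠ 0 ∧ θ t = P})
      (fun P _ => hcon P))).subset ?_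
    intro t ht
    exact Set.mem_biUnion (hmaps ht) ⟨ht, rfl⟩
  obtain ⟨t₀, ht₀⟩ := hP.nonempty
  obtain ⟨b, hb⟩ : ∃ b : Fin (n + 1) → L, b = fun i => (p i).eval ((2 : L) ^ t₀) := ⟨_, rfl⟩
  have hb0 : b i₀ ≠ 0 := by
    rw [hb]
    exact ht₀.1
  have hprop : ∀ i, p i * Polynomial.C (b i₀) = p i₀ * Polynomial.C (b i) := by
    intro i
    rw [← sub_eq_zero]
    apply hroots
    refine hP.mono ?_
    rintro t ⟨ht, htP⟩
    have h1 := hnz t ht
    have h2 := hnz t₀ ht₀.1
    have h3 : Projectivization.mk L _ h1 = Projectivization.mk L _ h2 := by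
      have e1 : θ t = Projectivization.mk L _ h1 := dif_pos h1
      have e2 : θ t₀ = Projectivization.mk L _ h2 := dif_pos h2
      rw [← e1, ← e2]
      exact htP.trans ht₀.2.symm
    obtain ⟨a, ha⟩ := (Projectivization.mk_eq_mk_iff' L _ _ h1 h2).1 h3
    have ha1 := congrFun ha i
    have ha2 := congrFun ha i₀
    simp only [Pi.smul_apply, smul_eq_mul] at ha1 ha2
    show Polynomial.eval _ _ = 0
    rw [Polynomial.eval_sub, Polynomial.eval_mul, Polynomial.eval_mul, Polynomial.eval_C,
      Polynomial.eval_C, ← ha1, ← ha2, hb]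
    ring
  refine ⟨p i₀ * Polynomial.C (b i₀)⁻¹, b, fun i => ?_⟩
  have h1 : Polynomial.C (b i₀)⁻¹ * Polynomial.C (b i₀) = 1 := by
    rw [← Polynomial.C_mul, inv_mul_cancel₀ hb0, Polynomial.C_1]
  calc p i = p i * (Polynomial.C (b i₀)⁻¹ * Polynomial.C (b i₀)) := by rw [h1, mul_one]
    _ = Polynomial.C (b i₀)⁻¹ * (p i * Polynomial.C (b i₀)) := by ring
    _ = p i₀ * Polynomial.C (b i₀)⁻¹ * Polynomial.C (b i) := by rw [hprop i]; ring

/-- **Main theorem.** -/
theorem result : ∃ (ε : ℕ → ℕ → ℝ) (M : Subgroup Qbarˣ → ℕ → ℕ → ℕ), (∀ d r, 0 < ε d r) ∧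
    ∀ (L : Type) [Field L] [Algebra Qbar L] (n N d r : ℕ)
      (F : Fin N → MvPolynomial (Fin (n + 1)) L), 1 ≤ d →
      (∀ i, ∃ e, e ≤ d ∧ (F i).IsHomogeneous e) →
      [NoCurve r F,
       ∀ (Γ : Subgroup Qbarˣ) (V : Fin r → Fin (n + 1) → L), Γ.FG →
         (nearPoints F Γ (ε d r) V).encard ≤ M Γ d r,
       ∀ V : Fin r → Fin (n + 1) → L, (powerPoints F V).Finite].TFAE := by
  classical
  have hM : ∀ (Γ : Subgroup Qbarˣ) (d r : ℕ), ∃ M : ℕ, Γ.FG → 1 ≤ d →
      ∀ (n N : ℕ) (L : Type) [Field L] (ι : Qbar →+* L)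
      (F : Fin N → MvPolynomial (Fin (n + 1)) L) (_ : ∀ i, ∃ e, e ≤ d ∧ (F i).IsHomogeneous e)
      (_ : Pool.Agent.Q51.UV.NoCurve r F) (V : Fin r → Fin (n + 1) → L),
      (Pool.Agent.Q51.UN.nearOff ι F 1 Γ (Pool.Agent.Q51.UN.epsU d r / d) V).encard ≤
        (M : ℕ∞) := by
    intro Γ d r
    by_cases h : Γ.FG ∧ 1 ≤ d
    · obtain ⟨M, hM⟩ := Pool.Agent.Q51.UV.proj_count Γ h.1 d r h.2
      exact ⟨M, fun _ _ => hM⟩
    · exact ⟨0, fun h1 h2 => absurd ⟨h1, h2⟩ h⟩
  choose M hM using hM
  refine ⟨fun d r => Pool.Agent.Q51.UN.epsU d r / (max d 1 : ℕ), M, fun d r =>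
    div_pos (Pool.Agent.Q51.UN.epsU_pos d r) (by
      have : 0 < max d 1 := by omega
      exact_mod_cast this), ?_⟩
  intro L _ _ n N d r F hd hF
  have hmax : max d 1 = d := max_eq_left hd
  simp only [hmax]
  have : CharZero L := charZero_of_injective_algebraMap (algebraMap Qbar L).injective
  tfae_have 1 → 2 := by
    intro hno Γ V hΓ
    have h1 := hM Γ d r hΓ hd n N L (algebraMap Qbar L) F hF (noCurve_lib F hno) V
    refine (Set.encard_le_encard ?_).trans h1
    rintro P ⟨u, s, h0, hu, hs, hP, hc⟩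
    exact ⟨fun j => u j * s j, ⟨u, s, hu, hs, fun j => rfl⟩, hc, by rw [map_one]; exact one_ne_zero,
      h0, hP⟩
  tfae_have 2 → 3 := by
    intro h V
    have h2 : (2 : Qbar) ≠ 0 := two_ne_zero
    have h1 := h (Subgroup.zpowers (Units.mk0 (2 : Qbar) h2)) V
      ((Subgroup.fg_iff _).2 ⟨{Units.mk0 (2 : Qbar) h2}, by
        rw [← Subgroup.zpowers_eq_closure], Set.finite_singleton _⟩)
    refine (Set.finite_of_encard_le_coe h1).subset ?_
    rintro P ⟨e, h0, hP, hc⟩
    have he : (fun i => ∑ j, algebraMap Qbar L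
        ((((Units.mk0 (2 : Qbar) h2) ^ e j : Qbarˣ) : Qbar) * 1) * V j i) =
        fun i => ∑ j, (2 : L) ^ e j * V j i := by
      funext i
      refine Finset.sum_congr rfl fun j _ => ?_
      rw [mul_one, Units.val_pow_eq_pow_val, Units.val_mk0, map_pow, map_ofNat]
    refine ⟨fun j => (Units.mk0 (2 : Qbar) h2) ^ e j, fun _ => 1, ?_, fun j => ⟨1, one_pos, ?_⟩,
      ?_, ?_, ?_⟩
    · rw [he]
      exact h0
    · rw [pow_one]
      exact Subgroup.pow_mem _ (Subgroup.mem_zpowers _) _
    · rw [Pool.Agent.Y215.SP.abs_one]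
      exact div_pos (Pool.Agent.Q51.UN.epsU_pos d r) (by exact_mod_cast hd)
    · rw [hP]
      congr 1
      exact he.symm
    · intro c
      rw [he]
      exact hc c
  tfae_have 3 → 1 := by
    intro h c l hp
    by_contra hne
    exact infinite_of_curve F c l hp hne (h c)
  tfae_finish

end Pool.Agent.Results.MP_c7af3c_ag.UniformFiniteRank
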