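import Mathlib
import Pool.Agent.Q51.UV.Int
import Pool.Agent.Q51.UF.ConvK

set_option autoImplicit false

/-!
# Heights of sums of `r` vectors on projective varieties

Let `Γ` be an infinite finitely generated group of algebraic numbers. For all `n`, `N`, `d`, `r` there
is `B` such that for ALL closed subsets `X` of projective `n`-space over the algebraic numbers which
are given by `N` forms of degree at most `d` the following conditions are equivalent.

1. Every curve `t ↦ ∑ t ^ (l j) c j` with `r` terms on `X` is constant.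
2. For ALL vectors `V 1, …, V r` of algebraic numbers the points `x = ∑ u j V j` of `X`, where the
   `u j` have a power in `Γ`, satisfy `h(x) ≤ B (1 + h(X) + h(V))`.
3. For all vectors `V 1, …, V r` of algebraic numbers the heights of the points `∑ u j V j` of `X`
   with `u j` in `Γ` are bounded.

A closed set has the property 1 for all `r` if and only if it contains no rational curve; for `r = 2`
the property 1 says that it contains no line.
-/

namespace Pool.Agent.Results.MP_c7af3c_ag.UniformHeights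

open MvPolynomial NumberField
open Pool.Agent.Helper259.AbsHt (absLogHeight absLogHeight_nonneg absLogHeight_comp_le)

/-- The algebraic numbers. -/
abbrev Qbar : Type := AlgebraicClosure ℚ

/-- The curve `t ↦ ∑ j, t ^ (l j) c j` with `r` terms. -/
noncomputable def curve {n r : ℕ} (c : Fin r → Fin (n + 1) → Qbar) (l : Fin r → ℕ) :
    Fin (n + 1) → Polynomial Qbar := fun i => ∑ j, Polynomial.C (c j i) * Polynomial.X ^ l j

/-- Every curve with `r` terms on the closed subset `F = 0` of projective space is constant. -/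
def NoCurve {n N : ℕ} (r : ℕ) (F : Fin N → MvPolynomial (Fin (n + 1)) Qbar) : Prop :=
  ∀ (c : Fin r → Fin (n + 1) → Qbar) (l : Fin r → ℕ), (∀ i, aeval (curve c l) (F i) = 0) →
    ∃ (g : Polynomial Qbar) (b : Fin (n + 1) → Qbar), ∀ i, curve c l i = g * Polynomial.C (b i)

/-- `u` has a power in `Γ`. -/
def HasPowerIn (Γ : Subgroup Qbarˣ) (u : Qbarˣ) : Prop := ∃ m : ℕ, 0 < m ∧ u ^ m ∈ Γ

/-- `x` is a point of the closed subset `F = 0` of projective space. -/
def IsPoint {n N : ℕ} (F : Fin N → MvPolynomial (Fin (n + 1)) Qbar) (x : Fin (n + 1) → Qbar) : Prop :=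
  x ≠ 0 ∧ ∀ c, eval x (F c) = 0

/-- The vector `∑ u j V j`. -/
noncomputable def combination {n r : ℕ} (u : Fin r → Qbarˣ) (V : Fin r → Fin (n + 1) → Qbar) :
    Fin (n + 1) → Qbar := fun i => ∑ j, (u j : Qbar) * V j i

/-- `h(X)`: the height of the point with the projective coordinates `1` and all the coefficients of
the forms `F i` of degree at most `d`. -/
noncomputable def equationsHeight {n N : ℕ} (d : ℕ)
    (F : Fin N → MvPolynomial (Fin (n + 1)) Qbar) : ℝ :=
  absLogHeight (fun o : Option (Fin N × {α : Fin (n + 1) →₀ ℕ // α.degree ≤ d}) =>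
    o.elim (1 : Qbar) (fun p => coeff p.2.1 (F p.1)))

/-- `h(V)`: the height of the point with the projective coordinates `V j i`. -/
noncomputable def vectorsHeight {n r : ℕ} (V : Fin r → Fin (n + 1) → Qbar) : ℝ :=
  absLogHeight (fun p : Fin r × Fin (n + 1) => V p.1 p.2)

theorem cof_le {n N : ℕ} (d : ℕ) (e : Fin N → ℕ) (he : ∀ i, e i ≤ d)
    (F : Fin N → MvPolynomial (Fin (n + 1)) Qbar) :
    Pool.Agent.Y215.AF.hA (Pool.Agent.Q51.UF.cof e F) ≤ equationsHeight d F := by
  have h1 := absLogHeight_comp_le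
    (fun o : Option (Pool.Agent.TH182.VD.CI n e) => o.map (fun x =>
      ((x.1, ⟨x.2.1, (show x.2.1.degree = e x.1 from x.2.2).le.trans (he x.1)⟩) :
        Fin N × {α : Fin (n + 1) →₀ ℕ // α.degree ≤ d})))
    (fun o : Option (Fin N × {α : Fin (n + 1) →₀ ℕ // α.degree ≤ d}) =>
      o.elim (1 : Qbar) (fun p => coeff p.2.1 (F p.1)))
  refine le_trans (le_of_eq ?_) h1
  unfold Pool.Agent.Y215.AF.hA
  congr 1
  funext o
  cases o <;> rfl

theorem curve_eq {n r : ℕ} (c : Fin r → Fin (n + 1) → Qbar) (l : Fin r → ℕ) :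
    curve c l = Pool.Agent.H533R3.SL.cur c l := by
  funext i
  rfl

theorem noCurve_lib {n N r : ℕ} (F : Fin N → MvPolynomial (Fin (n + 1)) Qbar)
    (h : NoCurve r F) : Pool.Agent.Q51.UV.NoCurve r F := by
  intro c l hz i i'
  obtain ⟨g, b, hgb⟩ := h c l hz
  rw [curve_eq] at hgb
  have hsum : ∀ j, ∑ j', c j' j = g.eval 1 * b j := by
    intro j
    rw [← Pool.Agent.H533R3.SL.cur_eval_one c l j, hgb j]
    simp
  rw [hgb i, hgb i', hsum, hsum, Polynomial.C_mul, Polynomial.C_mul]
  ring

/-- If the heights of the points `p (g ^ m)` are bounded, then `p` is constant. -/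
theorem constant_of_bounded {n : ℕ} (p : Fin (n + 1) → Polynomial Qbar) (g : Qbar)
    (hg : Function.Injective (fun m : ℕ => g ^ m)) (B : ℝ)
    (hB : ∀ m : ℕ, (fun i => (p i).eval (g ^ m)) ≠ 0 →
      absLogHeight (fun i => (p i).eval (g ^ m)) ≤ B) :
    ∃ (q : Polynomial Qbar) (b : Fin (n + 1) → Qbar), ∀ i, p i = q * Polynomial.C (b i) := by
  classical
  by_cases hp0 : ∀ i, p i = 0
  · exact ⟨0, fun _ => 0, fun i => by rw [hp0 i]; simp⟩
  push Not at hp0
  obtain ⟨i0, hi0⟩ := hp0
  have hinf : {m : ℕ | (p i0).eval (g ^ m) ≠ 0}.Infinite := by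
    have h1 : {m : ℕ | (p i0).eval (g ^ m) = 0}.Finite := by
      have h2 : {m : ℕ | (p i0).eval (g ^ m) = 0} ⊆
          (fun m : ℕ => g ^ m) ⁻¹' ((p i0).roots.toFinset : Set Qbar) := by
        intro m hm
        simp only [Set.mem_preimage, Finset.mem_coe, Multiset.mem_toFinset]
        exact (Polynomial.mem_roots hi0).2 hm
      exact (Set.Finite.preimage hg.injOn (Finset.finite_toSet _)).subset h2
    have h3 : {m : ℕ | (p i0).eval (g ^ m) ≠ 0} = {m : ℕ | (p i0).eval (g ^ m) = 0}ᶜ := rfl
    rw [h3]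
    exact h1.infinite_compl
  -- the number field
  let A : Set Qbar := {g} ∪ ⋃ i : Fin (n + 1), ((p i).coeffs : Set Qbar)
  have hA : A.Finite :=
    (Set.finite_singleton _).union (Set.finite_iUnion fun i => Finset.finite_toSet _)
  have hAf : Finite A := hA.to_subtype
  let E : IntermediateField ℚ Qbar := IntermediateField.adjoin ℚ A
  have hfd : FiniteDimensional ℚ E := IntermediateField.finiteDimensional_adjoin fun y _ =>
      ((AlgebraicClosure.isAlgebraic ℚ).isAlgebraic y).isIntegral
  have hNF : NumberField E := { to_charZero := inferInstance, to_finiteDimensional := hfd }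
  have hgE : g ∈ E := IntermediateField.subset_adjoin ℚ _ (Or.inl rfl)
  have hcE : ∀ i k, (p i).coeff k ∈ E := by
    intro i k
    by_cases hk : (p i).coeff k = 0
    · rw [hk]
      exact zero_mem E
    · exact IntermediateField.subset_adjoin ℚ _ (Or.inr (Set.mem_iUnion.2
        ⟨i, Finset.mem_coe.2 (Polynomial.coeff_mem_coeffs hk)⟩))
  have hxE : ∀ (m : ℕ) a, (p a).eval (g ^ m) ∈ E := by
    intro m a
    rw [Polynomial.eval_eq_sum_range]
    exact sum_mem fun j _ => mul_mem (hcE a j) (pow_mem (pow_mem hgE _) _)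
  let S : Set ℕ := {m : ℕ | (p i0).eval (g ^ m) ≠ 0}
  have hSinf : Infinite S := hinf.to_subtype
  let T : Set (Fin (n + 1) → E) := {y | Pool.Agent.Y215.AF.hA (fun a => ((y a : E) : Qbar)) ≤ B}
  have hTfin : T.Finite := Pool.Agent.Y215.AF.northcott_affQ E (E.val : E →+* Qbar) B
  have hTf : Finite T := hTfin.to_subtype
  let f : S → T := fun m => ⟨fun a => ⟨(p a).eval (g ^ (m : ℕ)) /
      (p i0).eval (g ^ (m : ℕ)), div_mem (hxE m a) (hxE m i0)⟩, by
    show Pool.Agent.Y215.AF.hA (fun a => (p a).eval (g ^ (m : ℕ)) /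
      (p i0).eval (g ^ (m : ℕ))) ≤ B
    have hm : (p i0).eval (g ^ (m : ℕ)) ≠ 0 := m.2
    refine (Pool.Agent.Q51.UF.K.hA_div_le (fun a => (p a).eval (g ^ (m : ℕ))) i0 hm).trans (hB m ?_)
    intro h3
    exact hm (congrFun h3 i0)⟩
  obtain ⟨y, hy⟩ := Finite.exists_infinite_fiber f
  refine ⟨p i0, fun a => ((y.1 a : E) : Qbar), fun a => ?_⟩
  have himg : ((fun m : S => g ^ (m : ℕ)) '' (f ⁻¹' {y})).Infinite := by
    refine Set.Infinite.image ?_ (Set.infinite_coe_iff.1 hy)
    intro m _ m' _ h
    exact Subtype.ext (hg h)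
  refine Polynomial.eq_of_infinite_eval_eq _ _ (himg.mono ?_)
  rintro _ ⟨m, hm, rfl⟩
  have h1 : f m = y := hm
  have h2 : ((y.1 a : E) : Qbar) = (p a).eval (g ^ (m : ℕ)) / (p i0).eval (g ^ (m : ℕ)) := by
    rw [← h1]
  have h3 : (p i0).eval (g ^ (m : ℕ)) ≠ 0 := m.2
  show Polynomial.eval (g ^ (m : ℕ)) (p a) =
    Polynomial.eval (g ^ (m : ℕ)) (p i0 * Polynomial.C ((y.1 a : E) : Qbar))
  rw [Polynomial.eval_mul, Polynomial.eval_C, h2]
  field_simp

/-- An infinite finitely generated group of algebraic numbers contains an element of infinite order. -/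
theorem exists_infinite_order (Γ : Subgroup Qbarˣ) (hfg : Γ.FG) (hinf : (Γ : Set Qbarˣ).Infinite) :
    ∃ g ∈ Γ, Function.Injective (fun m : ℕ => (g : Qbar) ^ m) := by
  by_contra hcon
  push Not at hcon
  have htor : IsMulTorsion Γ := by
    intro g
    have h1 := hcon g g.2
    by_contra h2
    apply h1
    have h3 : Function.Injective (fun m : ℕ => (g : Qbarˣ) ^ m) := by
      have h4 := injective_pow_iff_not_isOfFinOrder.2 h2
      intro a b hab
      apply h4
      apply Subtype.ext
      simpa using hab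
    intro a b hab
    apply h3
    apply Units.ext
    simpa using hab
  have hfgm : Group.FG Γ := (Group.fg_iff_subgroup_fg Γ).2 hfg
  have : Finite Γ := CommGroup.finite_of_fg_isMulTorsion Γ htor
  exact hinf (Set.toFinite (Γ : Set Qbarˣ))

/-- **Main theorem.** -/
theorem result (Γ : Subgroup Qbarˣ) (hfg : Γ.FG) (hinf : (Γ : Set Qbarˣ).Infinite) (n N d r : ℕ) :
    ∃ B : ℝ, ∀ F : Fin N → MvPolynomial (Fin (n + 1)) Qbar,
      (∀ i, ∃ e, e ≤ d ∧ (F i).IsHomogeneous e) →
      [NoCurve r F,
       ∀ (V : Fin r → Fin (n + 1) → Qbar) (u : Fin r → Qbarˣ), (∀ j, HasPowerIn Γ (u j)) →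
         IsPoint F (combination u V) →
         absLogHeight (combination u V) ≤ B * (1 + equationsHeight d F + vectorsHeight V),
       ∀ V : Fin r → Fin (n + 1) → Qbar, ∃ B' : ℝ, ∀ u : Fin r → Qbarˣ, (∀ j, u j ∈ Γ) →
         IsPoint F (combination u V) → absLogHeight (combination u V) ≤ B'].TFAE := by
  classical
  choose B hB0 hB using fun e : Fin N → Fin (d + 1) =>
    Pool.Agent.Q51.UV.proj_heights (n := n) (fun i => (e i : ℕ)) r Γ hfg
  refine ⟨∑ e, B e, fun F hF => ?_⟩
  tfae_have 1 → 2 := by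
    intro hno V u hu hx
    choose e he hFe using hF
    let e' : Fin N → Fin (d + 1) := fun i => ⟨e i, Nat.lt_succ_of_le (he i)⟩
    have h1 := hB e' F u V hFe (noCurve_lib F hno) hu hx.1 (fun i => by
      rw [Pool.Agent.Q51.UN.aeval_eval]
      exact hx.2 i)
    refine h1.trans ?_
    have h2 := cof_le d (fun i => (e' i : ℕ)) (fun i => he i) F
    have h3 : (0 : ℝ) ≤ equationsHeight d F := absLogHeight_nonneg _
    have h4 : (0 : ℝ) ≤ vectorsHeight V := absLogHeight_nonneg _
    have h5 : Pool.Agent.Y215.SK.hV V = vectorsHeight V := rfl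
    have h6 : B e' ≤ ∑ e, B e :=
      Finset.single_le_sum (f := fun e => B e) (fun e _ => hB0 e) (Finset.mem_univ e')
    refine mul_le_mul h6 ?_ ?_ (Finset.sum_nonneg fun e _ => hB0 e)
    · rw [h5]
      linarith
    · have h7 := Pool.Agent.Q51.UF.hA_cof_nonneg (fun i => (e' i : ℕ)) F
      rw [h5]
      linarith
  tfae_have 2 → 3 := fun h V => ⟨_, fun u hu hx =>
    h V u (fun j => ⟨1, one_pos, by rw [pow_one]; exact hu j⟩) hx⟩
  tfae_have 3 → 1 := by
    intro h c l hz
    obtain ⟨g, hgΓ, hginj⟩ := exists_infinite_order Γ hfg hinf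
    obtain ⟨B', hB'⟩ := h c
    refine constant_of_bounded (curve c l) (g : Qbar) hginj B' fun m hm => ?_
    have hx : combination (fun j => g ^ (m * l j)) c =
        fun i => (curve c l i).eval ((g : Qbar) ^ m) := by
      funext i
      unfold combination curve
      rw [Polynomial.eval_finsetSum]
      refine Finset.sum_congr rfl fun j _ => ?_
      simp only [Polynomial.eval_mul, Polynomial.eval_C, Polynomial.eval_pow, Polynomial.eval_X,
        Units.val_pow_eq_pow_val, pow_mul]
      ring
    rw [← hx]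
    refine hB' (fun j => g ^ (m * l j)) (fun j => Subgroup.pow_mem _ hgΓ _) ⟨by rw [hx]; exact hm,
      fun k => ?_⟩
    rw [hx]
    have h1 := congrArg (Polynomial.eval ((g : Qbar) ^ m)) (hz k)
    rw [Polynomial.eval_zero, aeval_def] at h1
    have h2 := hom_eval₂ (F k) (algebraMap Qbar (Polynomial Qbar))
      (Polynomial.evalRingHom ((g : Qbar) ^ m)) (curve c l)
    rw [Polynomial.coe_evalRingHom, h1] at h2
    have h3 : (Polynomial.evalRingHom ((g : Qbar) ^ m)).comp (algebraMap Qbar (Polynomial Qbar)) =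
        RingHom.id Qbar := by
      refine RingHom.ext fun b => ?_
      simp
    rw [h3] at h2
    exact h2.symm
  tfae_finish

end Pool.Agent.Results.MP_c7af3c_ag.UniformHeights
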